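import Pool.Agent.Helper88.PF.Four
import Pool.Agent.Helper25.PF.Cond
import Pool.Agent.Helper97.PF.Bsg

/-!
# Near-minimisers of `T = dd + 2 η rho` over families (entropic PFR, exponent two)

`mem B o` is the member of the family `B` with the side information of `o` (a family with trivial
side information).  For a near-minimiser `A` of `dd + (2/9) rho X` the members of
`(A.fib A).add (A.fib A)` have small `dd` on average.
-/

set_option autoImplicit false

namespace Pool.Agent.Helper88.PF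

open Finset Pool.Agent.Helper15.BP Pool.Agent.Helper25.PF

variable {G : Type} [AddCommGroup G]

/-- weights of the member of the family with side information `u` -/
noncomputable def memW (B : Fam G) (u : B.ι) : B.Ω → ℝ := by
  classical exact if 0 < pr B.w B.J u then condW B.w B.J u else B.w

theorem memW_isPr (B : Fam G) (u : B.ι) : IsPr (memW B u) := by
  unfold memW
  split_ifs with hu
  · exact condW_isPr B.hw B.J hu
  · exact B.hw

/-- the member of the family `B` with the side information of `o` -/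
noncomputable def mem (B : Fam G) (o : B.Ω) : Fam G where
  Ω := B.Ω
  ι := Unit
  fin := inferInstance
  w := memW B (B.J o)
  hw := memW_isPr B (B.J o)
  J := fun _ => ()
  Y := B.Y

theorem memW_eq (B : Fam G) {o : B.Ω} (ho : 0 < B.w o) :
    memW B (B.J o) = condW B.w B.J (B.J o) := by
  unfold memW
  rw [if_pos (pr_pos B.hw B.J ho)]

theorem h_mem (B : Fam G) {o : B.Ω} (ho : 0 < B.w o) :
    h (mem B o) = Ent (condW B.w B.J (B.J o)) B.Y := by
  unfold h
  have e1 : Ent (mem B o).w (fun o' => ((mem B o).J o', (mem B o).Y o')) =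
      Ent (condW B.w B.J (B.J o)) B.Y := by
    have : (mem B o).w = condW B.w B.J (B.J o) := memW_eq B ho
    rw [this]
    refine Ent_congr fun a b => ?_
    simp [mem]
  have e2 : Ent (mem B o).w (mem B o).J = 0 := Ent_const (mem B o).hw ()
  rw [e1, e2, sub_zero]

/-- `h B` is the average of the entropies of the members -/
theorem sum_h_mem (B : Fam G) : ∑ o, B.w o * h (mem B o) = h B := by
  have h1 : ∀ o, B.w o * h (mem B o) = B.w o * Ent (condW B.w B.J (B.J o)) B.Y := by
    intro o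
    rcases (B.hw.nonneg o).eq_or_lt with h0 | h0
    · rw [← h0, zero_mul, zero_mul]
    · rw [h_mem B h0]
  rw [Finset.sum_congr rfl fun o _ => h1 o, ← Ent_cond B.hw B.Y B.J]
  unfold h
  congr 1
  refine Ent_congr fun a b => ?_
  simp only [Prod.mk.injEq]
  tauto

/-- `h (X + B)` is the average of `h (X + member)` -/
theorem sum_h_add_mem (X B : Fam G) : ∑ o, B.w o * h (X.add (mem B o)) = h (X.add B) := by
  have h1 : ∀ o, B.w o * h (X.add (mem B o)) =
      B.w o * Ent (prodW X.w (condW B.w B.J (B.J o))) (fun p => (X.J p.1, X.Y p.1 + B.Y p.2)) -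
        B.w o * Ent X.w X.J := by
    intro o
    rcases (B.hw.nonneg o).eq_or_lt with h0 | h0
    · rw [← h0]; ring
    · rw [h_add]
      have e2 : Ent (mem B o).w (mem B o).J = 0 := Ent_const (mem B o).hw ()
      have e3 : Ent (prodW X.w (mem B o).w)
          (fun p => ((X.J p.1, (mem B o).J p.2), X.Y p.1 + (mem B o).Y p.2)) =
          Ent (prodW X.w (condW B.w B.J (B.J o))) (fun p => (X.J p.1, X.Y p.1 + B.Y p.2)) := by
        have : (mem B o).w = condW B.w B.J (B.J o) := memW_eq B h0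
        rw [this]
        refine Ent_congr fun a b => ?_
        simp [mem]
      rw [e2, e3]
      ring
  rw [Finset.sum_congr rfl fun o _ => h1 o, Finset.sum_sub_distrib,
    ← Ent_indep X.hw B.hw (fun p => (X.J p.1, X.Y p.1 + B.Y p.2)) B.J, ← Finset.sum_mul,
    B.hw.sum_one, one_mul, h_add]
  have e4 : Ent (prodW X.w B.w) (fun p => ((X.J p.1, X.Y p.1 + B.Y p.2), B.J p.2)) =
      Ent (prodW X.w B.w) (fun p => ((X.J p.1, B.J p.2), X.Y p.1 + B.Y p.2)) := by
    refine Ent_congr fun a b => ?_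
    simp only [Prod.mk.injEq]
    tauto
  rw [e4]
  ring

/-- `rho X B` is the average over the members -/
theorem sum_rho_mem (X B : Fam G) : ∑ o, B.w o * rho X (mem B o) = rho X B := by
  have h1 : ∀ o, B.w o * rho X (mem B o) = B.w o * h (X.add (mem B o)) - B.w o * (h X / 2) -
      B.w o * h (mem B o) / 2 := by
    intro o
    unfold rho
    ring
  rw [Finset.sum_congr rfl fun o _ => h1 o, Finset.sum_sub_distrib, Finset.sum_sub_distrib,
    sum_h_add_mem, ← Finset.sum_mul, B.hw.sum_one, ← Finset.sum_div, sum_h_mem]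
  unfold rho
  ring

/-- the average of the self-distances of the members, by two trials -/
theorem sum_dd_mem (B : Fam G) : ∑ o, B.w o * dd (mem B o) =
    Ent (twoW B.w B.J) (fun p => (B.Y p.1 + B.Y p.2, B.J p.1)) - Ent B.w B.J - h B := by
  have h1 : ∀ o, B.w o * dd (mem B o) =
      B.w o * Ent (prodW (condW B.w B.J (B.J o)) (condW B.w B.J (B.J o)))
        (fun p => B.Y p.1 + B.Y p.2) - B.w o * h (mem B o) := by
    intro o
    rcases (B.hw.nonneg o).eq_or_lt with h0 | h0
    · rw [← h0]; ring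
    · unfold dd
      rw [h_add]
      have e2 : Ent (mem B o).w (mem B o).J = 0 := Ent_const (mem B o).hw ()
      have e3 : Ent (prodW (mem B o).w (mem B o).w)
          (fun p => (((mem B o).J p.1, (mem B o).J p.2), (mem B o).Y p.1 + (mem B o).Y p.2)) =
          Ent (prodW (condW B.w B.J (B.J o)) (condW B.w B.J (B.J o)))
            (fun p => B.Y p.1 + B.Y p.2) := by
        have : (mem B o).w = condW B.w B.J (B.J o) := memW_eq B h0
        rw [this]
        refine Ent_congr fun a b => ?_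
        simp [mem]
      rw [e2, e3]
      ring
  rw [Finset.sum_congr rfl fun o _ => h1 o, Finset.sum_sub_distrib, sum_h_mem,
    ← Ent_two B.hw (fun p => B.Y p.1 + B.Y p.2) B.J]

theorem twoW_congr {Ω α β : Type*} [Fintype Ω] (w : Ω → ℝ) {U : Ω → α} {V : Ω → β}
    (h : ∀ o o', U o = U o' ↔ V o = V o') : twoW w U = twoW w V := by
  funext p
  unfold twoW
  by_cases hp : U p.1 = U p.2
  · rw [if_pos hp, if_pos ((h _ _).1 hp), pr_congr h]
  · rw [if_neg hp, if_neg fun h' => hp ((h _ _).2 h')]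

theorem w2_eq_twoW {Ω α : Type*} [Fintype Ω] (w : Ω → ℝ) (U : Ω → α) :
    Pool.Agent.Helper97.PF.w2 w U = twoW w U := rfl

/-- **the endgame**: the members of `F + F` have average self-distance at most `3 I` -/
theorem sum_dd_mem_le (h2 : ∀ x : G, x + x = 0) (A : Fam G) :
    ∑ o, ((A.fib A).add (A.fib A)).w o * dd (mem ((A.fib A).add (A.fib A)) o) ≤ 3 * I4 A := by
  set B := (A.fib A).add (A.fib A) with hB
  have hw : B.w = W4 A := rfl
  have hY : B.Y = T13 A := rfl
  have hT : ∀ p, T13 A p + T23 A p = T12 A p := by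
    intro p
    have := h2 (A.Y p.2.1)
    unfold T13 T23 T12
    calc A.Y p.1.1 + A.Y p.2.1 + (A.Y p.1.2 + A.Y p.2.1)
        = A.Y p.1.1 + A.Y p.1.2 + (A.Y p.2.1 + A.Y p.2.1) := by abel
      _ = A.Y p.1.1 + A.Y p.1.2 := by rw [this, add_zero]
  have hJ : ∀ o o' : (A.Ω × A.Ω) × (A.Ω × A.Ω),
      ((((A.J o.1.1, A.J o.1.2), A.Y o.1.1 + A.Y o.1.2),
        ((A.J o.2.1, A.J o.2.2), A.Y o.2.1 + A.Y o.2.2)) =
      (((A.J o'.1.1, A.J o'.1.2), A.Y o'.1.1 + A.Y o'.1.2),
        ((A.J o'.2.1, A.J o'.2.2), A.Y o'.2.1 + A.Y o'.2.2))) ↔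
      (T13 A o + T23 A o, (S4 A o, J4 A o)) = (T13 A o' + T23 A o', (S4 A o', J4 A o')) := by
    intro o o'
    rw [hT, hT]
    simp only [T12, S4, J4, Prod.mk.injEq]
    constructor
    · rintro ⟨⟨⟨a, b⟩, c⟩, ⟨d, f⟩, g⟩
      exact ⟨c, by rw [c, g], ⟨a, b⟩, d, f⟩
    · rintro ⟨c, g, ⟨a, b⟩, d, f⟩
      rw [c] at g
      exact ⟨⟨⟨a, b⟩, c⟩, ⟨d, f⟩, by simpa using g⟩
  have hJ : ∀ o o', B.J o = B.J o' ↔
      (T13 A o + T23 A o, (S4 A o, J4 A o)) = (T13 A o' + T23 A o', (S4 A o', J4 A o')) := hJ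
  have key := Pool.Agent.Helper97.PF.bsg h2 (W4_isPr A) (T13 A) (T23 A)
    (fun p => (S4 A p, J4 A p))
  rw [w2_eq_twoW] at key
  have e1 : Ent (twoW B.w B.J) (fun p => (B.Y p.1 + B.Y p.2, B.J p.1)) =
      Ent (twoW (W4 A) (fun o => (T13 A o + T23 A o, (S4 A o, J4 A o))))
        (fun p => (T13 A p.1 + T13 A p.2, T13 A p.1 + T23 A p.1, (S4 A p.1, J4 A p.1))) := by
    rw [twoW_congr B.w hJ, hw]
    refine Ent_congr fun o o' => ?_
    have := hJ o.1 o'.1
    simp only [Prod.mk.injEq] at this ⊢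
    rw [this]
    rfl
  have e2 : Ent B.w B.J = Ent (W4 A) (fun o => (T13 A o + T23 A o, (S4 A o, J4 A o))) :=
    Ent_congr hJ
  have e3 : Ent B.w (fun o => (B.J o, B.Y o)) =
      Ent (W4 A) (fun o => (T13 A o, T13 A o + T23 A o, (S4 A o, J4 A o))) := by
    refine Ent_congr fun o o' => ?_
    have := hJ o o'
    simp only [Prod.mk.injEq] at this ⊢
    rw [this]
    have : B.Y o = B.Y o' ↔ T13 A o = T13 A o' := Iff.rfl
    rw [this]
    tauto
  have e4 : Ent (W4 A) (fun o => (T13 A o + T23 A o, (S4 A o, J4 A o))) = 2 * a2 A := by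
    rw [← Ent_T12]
    simp only [hT]
  rw [sum_dd_mem, e1, e2]
  have e5 : h B = Ent B.w (fun o => (B.J o, B.Y o)) - Ent B.w B.J := rfl
  rw [e5, e3, e2]
  have hI : I4 A = Ent (W4 A) (fun p => (T13 A p, (S4 A p, J4 A p))) +
    Ent (W4 A) (fun p => (T23 A p, (S4 A p, J4 A p))) -
    Ent (W4 A) (fun p => (T13 A p, T23 A p, (S4 A p, J4 A p))) -
    Ent (W4 A) (fun p => (S4 A p, J4 A p)) := rfl
  have e6 := Ent_T13 A
  have e7 := Ent_T23 A
  rw [e4] at key ⊢
  linarith

/-- **near-minimisers** (`η = 1/9`) -/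
theorem near_min (h2 : ∀ x : G, x + x = 0) (X A : Fam G) (t δ : ℝ)
    (hT : ∀ B : Fam G, t ≤ dd B + 2 / 9 * rho X B) (hA : dd A + 2 / 9 * rho X A ≤ t + δ) :
    dd A ≤ 72 * δ ∧
    ∑ o, ((A.fib A).add (A.fib A)).w o * dd (mem ((A.fib A).add (A.fib A)) o) ≤ 54 * δ ∧
    ∑ o, ((A.fib A).add (A.fib A)).w o * rho X (mem ((A.fib A).add (A.fib A)) o) ≤
      9 / 2 * t + 81 * δ := by
  set F := A.fib A with hF
  set B := F.add F with hB
  have i1 := dd_add_dd_fib h2 A
  have i2 := rho_add_le X A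
  have i3 := rho_fib_le X A
  have i4 := rho_add_le X F
  have t1 := hT (A.add A)
  have t2 := hT F
  have i5 := sum_dd_mem_le h2 A
  have i6 := sum_rho_mem X B
  have i7 : t ≤ ∑ o, B.w o * dd (mem B o) + 2 / 9 * ∑ o, B.w o * rho X (mem B o) := by
    have h1 : t = ∑ o, B.w o * t := by rw [← Finset.sum_mul, B.hw.sum_one, one_mul]
    rw [h1, Finset.mul_sum, ← Finset.sum_add_distrib]
    refine Finset.sum_le_sum fun o _ => ?_
    have := mul_le_mul_of_nonneg_left (hT (mem B o)) (B.hw.nonneg o)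
    linarith
  have i8 := dd_nonneg A
  have i9 := rho_nonneg X A
  rw [← hF] at i1 i3
  rw [← hF, ← hB] at i5
  have k1 : dd A ≤ 72 * δ := by linarith
  refine ⟨k1, by linarith, ?_⟩
  rw [i6]
  linarith

end Pool.Agent.Helper88.PF
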