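import Pool.Agent.Helper15.BP.Fam

/-!
# Calculus of families for the entropic polynomial Freiman-Ruzsa theorem (exponent two)

`h A = H(Y | J)`, `dd A = h (A + A) - h A` (the mean Ruzsa distance of two independent members),
`rho X A = h (X + A) - h X / 2 - h A / 2` (the mean Ruzsa distance of the members of `X` and `A`).
-/

set_option autoImplicit false

namespace Pool.Agent.Helper88.PF

open Finset Pool.Agent.Helper15.BP

variable {G : Type} [AddCommGroup G]

/-- the conditional entropy of `Y` given `J` -/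
noncomputable def h (A : Fam G) : ℝ := Ent A.w (fun o => (A.J o, A.Y o)) - Ent A.w A.J

/-- mean Ruzsa distance of two independent members -/
noncomputable def dd (A : Fam G) : ℝ := h (A.add A) - h A

/-- mean Ruzsa distance of a member of `X` and a member of `A` -/
noncomputable def rho (X A : Fam G) : ℝ := h (X.add A) - h X / 2 - h A / 2

theorem h_add (A B : Fam G) : h (A.add B) =
    Ent (prodW A.w B.w) (fun p => ((A.J p.1, B.J p.2), A.Y p.1 + B.Y p.2)) -
      (Ent A.w A.J + Ent B.w B.J) := by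
  have : h (A.add B) = Ent (prodW A.w B.w) (fun p => ((A.J p.1, B.J p.2), A.Y p.1 + B.Y p.2)) -
      Ent (prodW A.w B.w) (fun p => (A.J p.1, B.J p.2)) := rfl
  rw [this, Ent_prod A.hw B.hw]

/-- independent pairs: `H(Y₁, Y₂ | J) = h A + h B` in product form -/
theorem Ent_pair (A B : Fam G) :
    Ent (prodW A.w B.w) (fun p => ((A.J p.1, B.J p.2), A.Y p.1, B.Y p.2)) =
      Ent A.w (fun o => (A.J o, A.Y o)) + Ent B.w (fun o => (B.J o, B.Y o)) := by
  rw [← Ent_prod A.hw B.hw]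
  refine Ent_congr fun o o' => ?_
  simp only [Prod.mk.injEq]
  tauto

theorem h_nonneg (A : Fam G) : 0 ≤ h A := by
  unfold h
  have := Ent_mono A.hw (f := A.J) (g := fun o => (A.J o, A.Y o))
    (fun o o' h => congrArg Prod.fst h)
  linarith

/-- `h (A + B)` is at least `h B` -/
theorem h_le_add_right (A B : Fam G) : h B ≤ h (A.add B) := by
  have hP := A.hw.prod B.hw
  have h1 := Ent_submod hP (fun p => A.Y p.1 + B.Y p.2) (fun p => A.Y p.1)
    (fun p => (A.J p.1, B.J p.2))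
  have e1 : Ent (prodW A.w B.w) (fun p => (A.Y p.1 + B.Y p.2, A.Y p.1, A.J p.1, B.J p.2)) =
      Ent A.w (fun o => (A.J o, A.Y o)) + Ent B.w (fun o => (B.J o, B.Y o)) := by
    rw [← Ent_pair]
    refine Ent_congr fun o o' => ?_
    simp only [Prod.mk.injEq]
    constructor
    · rintro ⟨a, b, c, d⟩
      rw [b] at a
      exact ⟨⟨c, d⟩, b, by simpa using a⟩
    · rintro ⟨⟨c, d⟩, b, a⟩
      exact ⟨by rw [b, a], b, c, d⟩
  have e2 : Ent (prodW A.w B.w) (fun p => (A.Y p.1, A.J p.1, B.J p.2)) =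
      Ent A.w (fun o => (A.J o, A.Y o)) + Ent B.w B.J := by
    rw [← Ent_prod A.hw B.hw]
    refine Ent_congr fun o o' => ?_
    simp only [Prod.mk.injEq]
    tauto
  have e3 : Ent (prodW A.w B.w) (fun p => (A.Y p.1 + B.Y p.2, A.J p.1, B.J p.2)) =
      Ent (prodW A.w B.w) (fun p => ((A.J p.1, B.J p.2), A.Y p.1 + B.Y p.2)) := by
    refine Ent_congr fun o o' => ?_
    simp only [Prod.mk.injEq]
    tauto
  rw [e1, e2, e3, Ent_prod A.hw B.hw] at h1
  rw [h_add]
  unfold h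
  linarith

/-- transport of the sum of two families along the exchange of the factors -/
theorem h_add_comm (A B : Fam G) : h (A.add B) = h (B.add A) := by
  rw [h_add, h_add]
  have : Ent (prodW A.w B.w) (fun p => ((A.J p.1, B.J p.2), A.Y p.1 + B.Y p.2)) =
      Ent (prodW B.w A.w) (fun p => ((B.J p.1, A.J p.2), B.Y p.1 + A.Y p.2)) := by
    rw [← Ent_equiv (w := prodW A.w B.w) (w' := prodW B.w A.w) (Equiv.prodComm A.Ω B.Ω)
      (fun o => by simp [prodW, mul_comm])]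
    refine Ent_congr fun o o' => ?_
    simp only [Prod.mk.injEq, Equiv.prodComm_apply, Prod.fst_swap, Prod.snd_swap]
    rw [add_comm (B.Y o.2), add_comm (B.Y o'.2)]
    tauto
  rw [this]
  ring

theorem h_le_add_left (A B : Fam G) : h A ≤ h (A.add B) := by
  rw [h_add_comm]
  exact h_le_add_right B A

theorem dd_nonneg (A : Fam G) : 0 ≤ dd A := by
  unfold dd
  linarith [h_le_add_right A A]

theorem rho_nonneg (X A : Fam G) : 0 ≤ rho X A := by
  unfold rho
  linarith [h_le_add_right X A, h_le_add_left X A]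

/-- `h(X + A + B) + h(A) ≤ h(X + A) + h(A + B)` -/
theorem h_add_add (X A B : Fam G) :
    h (X.add (A.add B)) + h A ≤ h (X.add A) + h (A.add B) := by
  have hP := X.hw.prod (A.hw.prod B.hw)
  have h1 := Ent_submod hP (fun p => X.Y p.1) (fun p => B.Y p.2.2)
    (fun p => (X.Y p.1 + (A.Y p.2.1 + B.Y p.2.2), (X.J p.1, (A.J p.2.1, B.J p.2.2))))
  have e1 : Ent (prodW X.w (prodW A.w B.w)) (fun p => (X.Y p.1, B.Y p.2.2,
      X.Y p.1 + (A.Y p.2.1 + B.Y p.2.2), (X.J p.1, (A.J p.2.1, B.J p.2.2)))) =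
      Ent X.w (fun o => (X.J o, X.Y o)) + (Ent A.w (fun o => (A.J o, A.Y o)) +
        Ent B.w (fun o => (B.J o, B.Y o))) := by
    rw [← Ent_prod A.hw B.hw, ← Ent_prod X.hw (A.hw.prod B.hw)]
    refine Ent_congr fun o o' => ?_
    simp only [Prod.mk.injEq]
    constructor
    · rintro ⟨a, b, c, d, e, f⟩
      rw [a, b] at c
      exact ⟨⟨d, a⟩, ⟨e, by simpa using c⟩, f, b⟩
    · rintro ⟨⟨d, a⟩, ⟨e, c⟩, f, b⟩
      exact ⟨a, b, by rw [a, b, c], d, e, f⟩
  have e2 : Ent (prodW X.w (prodW A.w B.w)) (fun p =>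
      (X.Y p.1, X.Y p.1 + (A.Y p.2.1 + B.Y p.2.2), (X.J p.1, (A.J p.2.1, B.J p.2.2)))) =
      Ent X.w (fun o => (X.J o, X.Y o)) +
        Ent (prodW A.w B.w) (fun p => ((A.J p.1, B.J p.2), A.Y p.1 + B.Y p.2)) := by
    rw [← Ent_prod X.hw (A.hw.prod B.hw)]
    refine Ent_congr fun o o' => ?_
    simp only [Prod.mk.injEq]
    constructor
    · rintro ⟨a, c, d, e, f⟩
      rw [a] at c
      exact ⟨⟨d, a⟩, ⟨e, f⟩, by simpa using c⟩
    · rintro ⟨⟨d, a⟩, ⟨e, f⟩, c⟩
      exact ⟨a, by rw [a, c], d, e, f⟩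
  have e3 : Ent (prodW X.w (prodW A.w B.w)) (fun p =>
      (B.Y p.2.2, X.Y p.1 + (A.Y p.2.1 + B.Y p.2.2), (X.J p.1, (A.J p.2.1, B.J p.2.2)))) =
      Ent (prodW X.w A.w) (fun p => ((X.J p.1, A.J p.2), X.Y p.1 + A.Y p.2)) +
        Ent B.w (fun o => (B.J o, B.Y o)) := by
    rw [← Ent_prod (X.hw.prod A.hw) B.hw, ← Ent_equiv (w := prodW X.w (prodW A.w B.w))
      (w' := prodW (prodW X.w A.w) B.w) (Equiv.prodAssoc X.Ω A.Ω B.Ω).symm
      (fun o => by simp [prodW, mul_assoc])]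
    refine Ent_congr fun o o' => ?_
    simp only [Prod.mk.injEq, Equiv.prodAssoc_symm_apply]
    constructor
    · rintro ⟨a, c, d, e, f⟩
      rw [a, ← add_assoc, ← add_assoc] at c
      exact ⟨⟨⟨d, e⟩, by simpa using c⟩, f, a⟩
    · rintro ⟨⟨⟨d, e⟩, c⟩, f, a⟩
      exact ⟨a, by rw [a, ← add_assoc, ← add_assoc, c], d, e, f⟩
  have e4 : Ent (prodW X.w (prodW A.w B.w)) (fun p =>
      (X.Y p.1 + (A.Y p.2.1 + B.Y p.2.2), (X.J p.1, (A.J p.2.1, B.J p.2.2)))) =
      Ent (prodW X.w (A.add B).w)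
        (fun p => ((X.J p.1, (A.add B).J p.2), X.Y p.1 + (A.add B).Y p.2)) := by
    refine Ent_congr fun o o' => ?_
    simp only [Fam.add, Prod.mk.injEq]
    tauto
  rw [e1, e2, e3, e4] at h1
  have e5 := Ent_prod A.hw B.hw A.J B.J
  rw [h_add X (A.add B), h_add X A, h_add A B]
  have e6 : Ent (A.add B).w (A.add B).J = Ent A.w A.J + Ent B.w B.J := e5
  rw [e6]
  unfold h
  linarith

/-- `rho X (A + A) ≤ rho X A + dd A / 2` -/
theorem rho_add_le (X A : Fam G) : rho X (A.add A) ≤ rho X A + dd A / 2 := by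
  have := h_add_add X A A
  unfold rho dd
  linarith

/-- `h (Y₁ | Y₁ + Y₂) = h A + h B - h (A + B)` -/
theorem h_fib (A B : Fam G) : h (A.fib B) = h A + h B - h (A.add B) := by
  have e1 : h (A.fib B) = Ent (prodW A.w B.w)
      (fun p => (((A.J p.1, B.J p.2), A.Y p.1 + B.Y p.2), A.Y p.1)) -
      Ent (prodW A.w B.w) (fun p => ((A.J p.1, B.J p.2), A.Y p.1 + B.Y p.2)) := rfl
  have e2 : Ent (prodW A.w B.w)
      (fun p => (((A.J p.1, B.J p.2), A.Y p.1 + B.Y p.2), A.Y p.1)) =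
      Ent A.w (fun o => (A.J o, A.Y o)) + Ent B.w (fun o => (B.J o, B.Y o)) := by
    rw [← Ent_pair]
    refine Ent_congr fun o o' => ?_
    simp only [Prod.mk.injEq]
    constructor
    · rintro ⟨⟨⟨a, b⟩, c⟩, d⟩
      rw [d] at c
      exact ⟨⟨a, b⟩, d, by simpa using c⟩
    · rintro ⟨⟨a, b⟩, d, c⟩
      exact ⟨⟨⟨a, b⟩, by rw [d, c]⟩, d⟩
  rw [e1, e2, h_add]
  unfold h
  ring

/-- conditioning on `Y₁ + Y₂` does not increase `h (X + Y₁)` -/
theorem h_add_fib_le (X A B : Fam G) : h (X.add (A.fib B)) ≤ h (X.add A) := by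
  have hP := X.hw.prod (A.hw.prod B.hw)
  have h1 := Ent_submod hP (fun p => X.Y p.1 + A.Y p.2.1)
    (fun p => (A.Y p.2.1 + B.Y p.2.2, B.J p.2.2)) (fun p => (X.J p.1, A.J p.2.1))
  have e1 : Ent (prodW X.w (prodW A.w B.w)) (fun p => (X.Y p.1 + A.Y p.2.1,
      (A.Y p.2.1 + B.Y p.2.2, B.J p.2.2), (X.J p.1, A.J p.2.1))) =
      Ent (prodW X.w (A.fib B).w)
        (fun p => ((X.J p.1, (A.fib B).J p.2), X.Y p.1 + (A.fib B).Y p.2)) := by
    refine Ent_congr fun o o' => ?_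
    simp only [Fam.fib, Prod.mk.injEq]
    tauto
  have e2 : Ent (prodW X.w (prodW A.w B.w)) (fun p => (X.J p.1, A.J p.2.1)) =
      Ent X.w X.J + Ent A.w A.J := by
    have := Ent_prod X.hw (A.hw.prod B.hw) X.J (fun p => A.J p.1)
    rw [this, Ent_fst B.hw]
  have e3 : Ent (prodW X.w (prodW A.w B.w)) (fun p =>
      (X.Y p.1 + A.Y p.2.1, (X.J p.1, A.J p.2.1))) =
      Ent (prodW X.w A.w) (fun p => ((X.J p.1, A.J p.2), X.Y p.1 + A.Y p.2)) := by
    rw [← Ent_fst (w := prodW X.w A.w) B.hw (fun p => ((X.J p.1, A.J p.2), X.Y p.1 + A.Y p.2)),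
      ← Ent_equiv (w := prodW X.w (prodW A.w B.w))
      (w' := prodW (prodW X.w A.w) B.w) (Equiv.prodAssoc X.Ω A.Ω B.Ω).symm
      (fun o => by simp [prodW, mul_assoc])]
    refine Ent_congr fun o o' => ?_
    simp only [Prod.mk.injEq, Equiv.prodAssoc_symm_apply]
    tauto
  have e4 : Ent (prodW X.w (prodW A.w B.w)) (fun p =>
      ((A.Y p.2.1 + B.Y p.2.2, B.J p.2.2), (X.J p.1, A.J p.2.1))) =
      Ent X.w X.J + Ent (A.fib B).w (A.fib B).J := by
    rw [← Ent_prod X.hw (A.fib B).hw]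
    refine Ent_congr fun o o' => ?_
    simp only [Fam.fib, Prod.mk.injEq]
    tauto
  rw [e1, e2, e3, e4] at h1
  rw [h_add X (A.fib B), h_add X A]
  linarith

/-- `rho X (Y₁ | Y₁ + Y₂) ≤ rho X A + dd A / 2` -/
theorem rho_fib_le (X A : Fam G) : rho X (A.fib A) ≤ rho X A + dd A / 2 := by
  have h1 := h_add_fib_le X A A
  have h2 := h_fib A A
  unfold rho dd
  rw [h2]
  linarith

theorem h_fib_self (A : Fam G) : h (A.fib A) = h A - dd A := by
  rw [h_fib]
  unfold dd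
  ring

end Pool.Agent.Helper88.PF
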