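import Pool.Agent.Helper88.PF.Calc

/-!
# Four independent copies of a family: the identity behind the entropic PFR theorem

`W4 A` are the weights of four copies `p = ((1, 2), (3, 4))`, `J4 A` their side information and
`S4 A` the sum.  `I4 A` is the mutual information of `Y₁ + Y₃` and `Y₂ + Y₃` given `S4` and `J4`.
-/

set_option autoImplicit false

namespace Pool.Agent.Helper88.PF

open Finset Pool.Agent.Helper15.BP

variable {G : Type} [AddCommGroup G]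

/-- weights of four independent copies -/
noncomputable def W4 (A : Fam G) : (A.Ω × A.Ω) × (A.Ω × A.Ω) → ℝ :=
  prodW (prodW A.w A.w) (prodW A.w A.w)

/-- side information of four copies -/
def J4 (A : Fam G) : (A.Ω × A.Ω) × (A.Ω × A.Ω) → (A.ι × A.ι) × (A.ι × A.ι) :=
  fun p => ((A.J p.1.1, A.J p.1.2), (A.J p.2.1, A.J p.2.2))

/-- the sum of four copies -/
def S4 (A : Fam G) : (A.Ω × A.Ω) × (A.Ω × A.Ω) → G :=
  fun p => (A.Y p.1.1 + A.Y p.1.2) + (A.Y p.2.1 + A.Y p.2.2)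

/-- first member of the pair: `Y₁ + Y₃` -/
def T13 (A : Fam G) : (A.Ω × A.Ω) × (A.Ω × A.Ω) → G := fun p => A.Y p.1.1 + A.Y p.2.1

/-- second member of the pair: `Y₂ + Y₃` -/
def T23 (A : Fam G) : (A.Ω × A.Ω) × (A.Ω × A.Ω) → G := fun p => A.Y p.1.2 + A.Y p.2.1

/-- `Y₁ + Y₂` -/
def T12 (A : Fam G) : (A.Ω × A.Ω) × (A.Ω × A.Ω) → G := fun p => A.Y p.1.1 + A.Y p.1.2

theorem W4_isPr (A : Fam G) : IsPr (W4 A) := (A.hw.prod A.hw).prod (A.hw.prod A.hw)

/-- the mutual information of `Y₁ + Y₃` and `Y₂ + Y₃` given the sum and the side information -/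
noncomputable def I4 (A : Fam G) : ℝ :=
  Ent (W4 A) (fun p => (T13 A p, (S4 A p, J4 A p))) +
    Ent (W4 A) (fun p => (T23 A p, (S4 A p, J4 A p))) -
    Ent (W4 A) (fun p => (T13 A p, T23 A p, (S4 A p, J4 A p))) -
    Ent (W4 A) (fun p => (S4 A p, J4 A p))

/-- `H(Y₁ + Y₂, J₁, J₂)` -/
noncomputable def a2 (A : Fam G) : ℝ :=
  Ent (prodW A.w A.w) (fun p => ((A.J p.1, A.J p.2), A.Y p.1 + A.Y p.2))

theorem Ent_T12 (A : Fam G) : Ent (W4 A) (fun p => (T12 A p, (S4 A p, J4 A p))) = 2 * a2 A := by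
  have h1 := Ent_prod (A.hw.prod A.hw) (A.hw.prod A.hw)
    (fun p : A.Ω × A.Ω => ((A.J p.1, A.J p.2), A.Y p.1 + A.Y p.2))
    (fun p : A.Ω × A.Ω => ((A.J p.1, A.J p.2), A.Y p.1 + A.Y p.2))
  rw [two_mul]
  unfold a2
  rw [← h1]
  unfold W4
  refine Ent_congr fun o o' => ?_
  simp only [T12, S4, J4, Prod.mk.injEq]
  constructor
  · rintro ⟨a, b, ⟨c, d⟩, e, f⟩
    rw [a] at b
    exact ⟨⟨⟨c, d⟩, a⟩, ⟨e, f⟩, by simpa using b⟩
  · rintro ⟨⟨⟨c, d⟩, a⟩, ⟨e, f⟩, b⟩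
    exact ⟨a, by rw [a, b], ⟨c, d⟩, e, f⟩

/-- exchange of the second and the third copy -/
def sw23 (Ω : Type) : (Ω × Ω) × (Ω × Ω) ≃ (Ω × Ω) × (Ω × Ω) where
  toFun p := ((p.1.1, p.2.1), (p.1.2, p.2.2))
  invFun p := ((p.1.1, p.2.1), (p.1.2, p.2.2))
  left_inv _ := rfl
  right_inv _ := rfl

/-- cyclic exchange of the first three copies -/
def cyc (Ω : Type) : (Ω × Ω) × (Ω × Ω) ≃ (Ω × Ω) × (Ω × Ω) where
  toFun p := ((p.2.1, p.1.1), (p.1.2, p.2.2))
  invFun p := ((p.1.2, p.2.1), (p.1.1, p.2.2))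
  left_inv _ := rfl
  right_inv _ := rfl

theorem Ent_T13 (A : Fam G) : Ent (W4 A) (fun p => (T13 A p, (S4 A p, J4 A p))) = 2 * a2 A := by
  rw [← Ent_T12, ← Ent_equiv (w := W4 A) (w' := W4 A) (sw23 A.Ω)
    (fun o => by simp only [W4, prodW, sw23, Equiv.coe_fn_mk]; ring)]
  refine Ent_congr fun o o' => ?_
  simp only [T12, T13, S4, J4, sw23, Equiv.coe_fn_mk, Prod.mk.injEq]
  have e : ∀ a b c d : G, a + c + (b + d) = a + b + (c + d) := fun a b c d => by abel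
  rw [e (A.Y o.1.1), e (A.Y o'.1.1)]
  tauto

theorem Ent_T23 (A : Fam G) : Ent (W4 A) (fun p => (T23 A p, (S4 A p, J4 A p))) = 2 * a2 A := by
  rw [← Ent_T12, ← Ent_equiv (w := W4 A) (w' := W4 A) (cyc A.Ω)
    (fun o => by simp only [W4, prodW, cyc, Equiv.coe_fn_mk]; ring)]
  refine Ent_congr fun o o' => ?_
  simp only [T12, T23, S4, J4, cyc, Equiv.coe_fn_mk, Prod.mk.injEq]
  have e : ∀ a b c d : G, c + a + (b + d) = a + b + (c + d) := fun a b c d => by abel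
  rw [e (A.Y o.1.1), e (A.Y o'.1.1)]
  tauto

theorem h_two (A : Fam G) : h (A.add A) = a2 A - 2 * Ent A.w A.J := by
  rw [h_add]
  unfold a2
  ring

theorem h_four (A : Fam G) : h ((A.add A).add (A.add A)) =
    Ent (W4 A) (fun p => (S4 A p, J4 A p)) - 4 * Ent A.w A.J := by
  have e1 : Ent (A.add A).w (A.add A).J = Ent A.w A.J + Ent A.w A.J :=
    Ent_prod A.hw A.hw A.J A.J
  rw [h_add, e1]
  have e2 : Ent (prodW (A.add A).w (A.add A).w)
      (fun p => (((A.add A).J p.1, (A.add A).J p.2), (A.add A).Y p.1 + (A.add A).Y p.2)) =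
      Ent (W4 A) (fun p => (S4 A p, J4 A p)) := by
    unfold W4
    refine Ent_congr fun o o' => ?_
    simp only [Fam.add, S4, J4, Prod.mk.injEq]
    tauto
  rw [e2]
  ring

/-- in exponent two, `h (F + F)` for `F = (Y₁ | Y₁ + Y₂)` -/
theorem h_fib_add_fib (h2 : ∀ x : G, x + x = 0) (A : Fam G) :
    h ((A.fib A).add (A.fib A)) =
      Ent (W4 A) (fun p => (T13 A p, T23 A p, (S4 A p, J4 A p))) - 2 * a2 A := by
  have e1 : Ent (A.fib A).w (A.fib A).J = a2 A := rfl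
  rw [h_add, e1]
  have e2 : Ent (prodW (A.fib A).w (A.fib A).w)
      (fun p => (((A.fib A).J p.1, (A.fib A).J p.2), (A.fib A).Y p.1 + (A.fib A).Y p.2)) =
      Ent (W4 A) (fun p => (T13 A p, T23 A p, (S4 A p, J4 A p))) := by
    unfold W4
    refine Ent_congr fun o o' => ?_
    simp only [Fam.fib, T13, T23, S4, J4, Prod.mk.injEq]
    have e : ∀ a b c : G, a + b = (a + c) + (b + c) := fun a b c => by
      have := h2 c
      calc a + b = a + b + (c + c) := by rw [this, add_zero]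
        _ = (a + c) + (b + c) := by abel
    constructor
    · rintro ⟨⟨⟨⟨a, b⟩, c⟩, ⟨d, f⟩, g⟩, i⟩
      refine ⟨i, ?_, ?_, ⟨a, b⟩, d, f⟩
      · have e3 : ∀ x y z : G, y + z = (x + y) + (x + z) := fun x y z => by
          have := e y z x
          rw [this]
          abel
        rw [e3 (A.Y o.1.1), c, i, ← e3]
      · rw [c, g]
    · rintro ⟨i, k, l, ⟨a, b⟩, d, f⟩
      have c : A.Y o.1.1 + A.Y o.1.2 = A.Y o'.1.1 + A.Y o'.1.2 := by
        rw [e (A.Y o.1.1) (A.Y o.1.2) (A.Y o.2.1), i, k, ← e]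
      rw [c] at l
      exact ⟨⟨⟨⟨a, b⟩, c⟩, ⟨d, f⟩, by simpa using l⟩, i⟩
  rw [e2]
  ring

theorem I4_eq (A : Fam G) : I4 A = 4 * a2 A -
    Ent (W4 A) (fun p => (T13 A p, T23 A p, (S4 A p, J4 A p))) -
    Ent (W4 A) (fun p => (S4 A p, J4 A p)) := by
  unfold I4
  rw [Ent_T13, Ent_T23]
  ring

theorem I4_nonneg (A : Fam G) : 0 ≤ I4 A := by
  have := Ent_submod (W4_isPr A) (T13 A) (T23 A) (fun p => (S4 A p, J4 A p))
  unfold I4
  linarith

/-- `h (2F) = 2 h (2A) - h (4A) - I` -/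
theorem h_fib_add_fib' (h2 : ∀ x : G, x + x = 0) (A : Fam G) :
    h ((A.fib A).add (A.fib A)) =
      2 * h (A.add A) - h ((A.add A).add (A.add A)) - I4 A := by
  rw [h_fib_add_fib h2, h_two, h_four, I4_eq]
  ring

/-- **the basic identity**: `dd (2A) + dd (A.fib A) + I4 A = 2 dd A` -/
theorem dd_add_dd_fib (h2 : ∀ x : G, x + x = 0) (A : Fam G) :
    dd (A.add A) + dd (A.fib A) + I4 A = 2 * dd A := by
  have h1 := h_fib_add_fib' h2 A
  have h3 := h_fib_self A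
  unfold dd at *
  linarith

end Pool.Agent.Helper88.PF
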